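import Pool.Agent.W895.LT.Shift

/-!
# The tables of permutations against the tables of the functions whose fibres are parallel lines

The places of the table are the points of the plane `F × F` over a finite field `F`, they are
labelled by the bit vectors of length `m`.
-/

set_option autoImplicit false

open Finset

namespace Pool.Agent.W895.LA

open Pool.Agent.W895.LT

variable {m : ℕ} {F : Type} [Field F] [Fintype F] (e : Vc m ≃ F × F)

/-- `u` and `v` are on a line with the slope `σ` -/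
def same (σ : F) (u v : Vc m) : Prop := (e v).2 - σ * (e v).1 = (e u).2 - σ * (e u).1

/-- the fibres of `g` are the lines with the slope `σ` -/
def IsLine (g : Vc m → Vc m) : Prop := ∃ σ : F, ∀ u v, g u = g v ↔ same e σ u v

/-- the representatives of the lines with the slope `σ` -/
def rp (σ : F) (u : Vc m) : Vc m := e.symm (0, (e u).2 - σ * (e u).1)

theorem rp_eq_iff (σ : F) (u v : Vc m) : rp e σ u = rp e σ v ↔ same e σ u v := by
  unfold rp same
  rw [e.symm.injective.eq_iff, Prod.mk.injEq]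
  constructor
  · rintro ⟨-, h⟩
    exact h.symm
  · intro h
    exact ⟨rfl, h.symm⟩

theorem isLine_comp (σ : F) (p : Equiv.Perm (Vc m)) : IsLine e (fun u => p (rp e σ u)) :=
  ⟨σ, fun u v => by
    rw [p.injective.eq_iff]
    exact rp_eq_iff e σ u v⟩

theorem same_unique {σ σ' : F} {u v : Vc m} (huv : u ≠ v) (h : same e σ u v)
    (h' : same e σ' u v) : σ = σ' := by
  unfold same at h h'
  by_contra hne
  apply huv
  apply e.injective
  have h1 : (σ - σ') * ((e u).1 - (e v).1) = 0 := by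
    have h2 : (σ - σ') * ((e u).1 - (e v).1) =
        ((e v).2 - σ * (e v).1 - ((e u).2 - σ * (e u).1)) * (-1) * (-1) -
        ((e v).2 - σ' * (e v).1 - ((e u).2 - σ' * (e u).1)) := by ring
    rw [h2, h, h']
    ring
  have h2 : (e u).1 = (e v).1 := by
    rcases mul_eq_zero.1 h1 with h3 | h3
    · exact absurd (sub_eq_zero.1 h3) hne
    · exact sub_eq_zero.1 h3
  refine Prod.ext h2 ?_
  rw [h2] at h
  exact (sub_left_inj.1 h).symm

theorem exists_perm {U : Finset (Vc m)} {T : Vc m → Vc m} (hT : Set.InjOn T U) :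
    ∃ τ : Equiv.Perm (Vc m), ∀ u ∈ U, τ u = T u := by
  classical
  obtain ⟨g, hg⟩ := Finset.exists_equiv_extend_of_card_eq (α := Vc m) (t := (univ : Finset (Vc m)))
    (by rw [Finset.card_univ]) (s := U) (f := T) (Finset.subset_univ _) hT
  exact ⟨g.trans (Equiv.subtypeUnivEquiv (fun x => Finset.mem_univ x)), fun u hu => hg u hu⟩

/-- the weights of the line functions -/
noncomputable def wt (z : Fin (2 ^ m * m) → Bool) : ℝ := by
  classical
  exact ∑ σ : F, ∑ p : Equiv.Perm (Vc m), if pat (fun u => p (rp e σ u)) = z then 1 else 0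

theorem wt_nonneg (z : Fin (2 ^ m * m) → Bool) : 0 ≤ wt e z := by
  classical
  unfold wt
  refine Finset.sum_nonneg fun s _ => Finset.sum_nonneg fun p _ => ?_
  split_ifs <;> norm_num

theorem sum_wt (G : (Fin (2 ^ m * m) → Bool) → ℝ) :
    ∑ z, wt e z * G z = ∑ σ : F, ∑ p : Equiv.Perm (Vc m), G (pat (fun u => p (rp e σ u))) := by
  classical
  unfold wt
  simp only [Finset.sum_mul]
  rw [Finset.sum_comm]
  refine Finset.sum_congr rfl fun s _ => ?_
  rw [Finset.sum_comm]
  refine Finset.sum_congr rfl fun p _ => ?_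
  simp only [ite_mul, one_mul, zero_mul]
  rw [Finset.sum_ite_eq]
  simp

theorem isLine_of_wt {z : Fin (2 ^ m * m) → Bool} (h : wt e z ≠ 0) : IsLine e (tbl z) := by
  classical
  unfold wt at h
  obtain ⟨s, hs, h1⟩ := Finset.exists_ne_zero_of_sum_ne_zero h
  obtain ⟨p, -, h2⟩ := Finset.exists_ne_zero_of_sum_ne_zero h1
  by_cases h3 : pat (fun u => p (rp e s u)) = z
  · rw [← h3, tbl_pat]
    exact isLine_comp e s p
  · rw [if_neg h3] at h2
    exact absurd rfl h2

theorem sum_wt_one : ∑ z : Fin (2 ^ m * m) → Bool, wt e z =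
    (Fintype.card F : ℝ) * Fintype.card (Equiv.Perm (Vc m)) := by
  classical
  have h := sum_wt e (fun _ => 1)
  simp only [mul_one] at h
  rw [h, Finset.sum_const, Finset.sum_const, Finset.card_univ, nsmul_eq_mul, nsmul_eq_mul, mul_one,
    Finset.card_univ]

/-- the normalised weights -/
noncomputable def bt (L : ℕ) (z : Fin (2 ^ m * m) → Bool) : ℝ :=
  wt e z / ((Fintype.card F : ℝ) - (L : ℝ) ^ 2)

theorem bt_nonneg {L : ℕ} (hL : (L : ℝ) ^ 2 ≤ Fintype.card F) (z : Fin (2 ^ m * m) → Bool) :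
    0 ≤ bt e L z := div_nonneg (wt_nonneg e z) (by linarith)

theorem isLine_of_bt {L : ℕ} {z : Fin (2 ^ m * m) → Bool} (h : bt e L z ≠ 0) :
    IsLine e (tbl z) := by
  apply isLine_of_wt
  intro h1
  apply h
  rw [bt, h1, zero_div]

theorem sum_bt {L : ℕ} (hL : 2 * (L : ℝ) ^ 2 < Fintype.card F) :
    ∑ z, bt e L z ≤ 2 * Fintype.card (Equiv.Perm (Vc m)) := by
  unfold bt
  rw [← Finset.sum_div, sum_wt_one, div_le_iff₀ (by nlinarith [sq_nonneg (L : ℝ)])]
  have h1 : (0 : ℝ) ≤ Fintype.card (Equiv.Perm (Vc m)) := Nat.cast_nonneg _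
  nlinarith

theorem comparison {L : ℕ} (hL : 2 * (L : ℝ) ^ 2 < Fintype.card F) :
    Comparison L (Perms m) (bt e L) := by
  classical
  intro U G hU h0 hG
  have hpos : (0 : ℝ) < (Fintype.card F : ℝ) - (L : ℝ) ^ 2 := by nlinarith [sq_nonneg (L : ℝ)]
  obtain ⟨U', hU'⟩ : ∃ U', U' = U.image fun c => ((idx m).symm c).1 := ⟨_, rfl⟩
  have hU'c : U'.card ≤ L := by
    rw [hU']
    exact Finset.card_image_le.trans hU
  have hG' : ∀ g g' : Vc m → Vc m, (∀ u ∈ U', g u = g' u) → G (pat g) = G (pat g') := by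
    intro g g' hg
    apply hG
    intro c hc
    unfold pat
    rw [hg _ (by rw [hU']; exact Finset.mem_image_of_mem _ hc)]
  obtain ⟨P, hP⟩ : ∃ P : ℝ, P = ∑ p : Equiv.Perm (Vc m), G (pat p) := ⟨_, rfl⟩
  have hP0 : 0 ≤ P := by
    rw [hP]
    exact Finset.sum_nonneg fun p _ => h0 _
  -- the slopes of the pairs
  obtain ⟨B, hB⟩ : ∃ B : Finset F, B = univ.filter (fun σ => ¬ Set.InjOn (rp e σ) U') := ⟨_, rfl⟩
  have hBc : (B.card : ℝ) ≤ (L : ℝ) ^ 2 := by
    have h1 : ∀ σ ∈ B, ∃ q : Vc m × Vc m, q ∈ U' ×ˢ U' ∧ q.1 ≠ q.2 ∧ same e σ q.1 q.2 := by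
      intro σ hσ
      rw [hB, Finset.mem_filter] at hσ
      have h2 := hσ.2
      rw [Set.InjOn] at h2
      push Not at h2
      obtain ⟨u, hu, v, hv, h3, h4⟩ := h2
      exact ⟨(u, v), Finset.mem_product.2 ⟨hu, hv⟩, h4, (rp_eq_iff e σ u v).1 h3⟩
    choose! q hq1 hq2 hq3 using h1
    have h2 : B.card ≤ (U' ×ˢ U').card := by
      refine Finset.card_le_card_of_injOn q (fun σ hσ => hq1 σ hσ) ?_
      intro σ hσ σ' hσ' h
      have h3 := hq3 σ' hσ'
      rw [← h] at h3
      exact same_unique e (hq2 σ hσ) (hq3 σ hσ) h3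
    rw [Finset.card_product] at h2
    have h3 : U'.card * U'.card ≤ L * L := Nat.mul_le_mul hU'c hU'c
    have : B.card ≤ L * L := h2.trans h3
    rw [pow_two]
    exact_mod_cast this
  have h1 : ∀ σ ∈ (univ : Finset F) \ B,
      ∑ p : Equiv.Perm (Vc m), G (pat (fun u => p (rp e σ u))) = P := by
    intro σ hσ
    have h2 : Set.InjOn (rp e σ) U' := by
      rw [Finset.mem_sdiff, hB, Finset.mem_filter] at hσ
      by_contra h3
      exact hσ.2 ⟨Finset.mem_univ _, h3⟩
    obtain ⟨τ, hτ⟩ := exists_perm h2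
    rw [hP, ← Equiv.sum_comp (Equiv.mulRight τ) (fun p : Equiv.Perm (Vc m) => G (pat p))]
    refine Finset.sum_congr rfl fun p _ => hG' _ _ fun u hu => ?_
    simp only [Equiv.coe_mulRight, Equiv.Perm.mul_apply, hτ u hu]
  have h2 : ((Fintype.card F : ℝ) - (L : ℝ) ^ 2) * P ≤
      ∑ σ : F, ∑ p : Equiv.Perm (Vc m), G (pat (fun u => p (rp e σ u))) := by
    have h3 : ∑ σ ∈ (univ : Finset F) \ B,
        ∑ p : Equiv.Perm (Vc m), G (pat (fun u => p (rp e σ u))) ≤
        ∑ σ : F, ∑ p : Equiv.Perm (Vc m), G (pat (fun u => p (rp e σ u))) :=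
      Finset.sum_le_sum_of_subset_of_nonneg Finset.sdiff_subset fun s _ _ =>
        Finset.sum_nonneg fun p _ => h0 _
    refine le_trans ?_ h3
    rw [Finset.sum_congr rfl h1, Finset.sum_const, nsmul_eq_mul]
    refine mul_le_mul_of_nonneg_right ?_ hP0
    have h4 : ((univ : Finset F) \ B).card + B.card = Fintype.card F := by
      rw [Finset.card_sdiff_add_card_eq_card (Finset.subset_univ _), Finset.card_univ]
    have h5 : (((univ : Finset F) \ B).card : ℝ) + B.card = Fintype.card F := by exact_mod_cast h4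
    linarith
  rw [sum_Perms, ← hP]
  have h4 : ∑ z, bt e L z * G z = (∑ z, wt e z * G z) / ((Fintype.card F : ℝ) - (L : ℝ) ^ 2) := by
    rw [Finset.sum_div]
    refine Finset.sum_congr rfl fun z _ => ?_
    unfold bt
    ring
  rw [h4, sum_wt, le_div_iff₀ hpos, mul_comm]
  exact h2

/-- the vectors prove that the fibres of `g` are neither points nor parallel lines -/
def Prf (g : Vc m → Vc m) (v0 v1 v2 v3 : Vc m) : Prop :=
  v0 ≠ v1 ∧ g v0 = g v1 ∧ ∀ σ : F, same e σ v0 v1 → ¬ (g v2 = g v3 ↔ same e σ v2 v3)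

theorem exists_prf {g : Vc m → Vc m} (h : ¬ IsLine e g)
    (hi : ¬ Function.Injective g) : ∃ v0 v1 v2 v3 : Vc m, Prf e g v0 v1 v2 v3 := by
  rw [Function.Injective] at hi
  push Not at hi
  obtain ⟨v0, v1, he, hne⟩ := hi
  by_cases h1 : ∃ σ : F, same e σ v0 v1
  · obtain ⟨σ, hσ⟩ := h1
    have h2 : ¬ ∀ u v, g u = g v ↔ same e σ u v := fun h3 => h ⟨σ, h3⟩
    obtain ⟨v2, h2⟩ := not_forall.1 h2
    obtain ⟨v3, h2⟩ := not_forall.1 h2
    refine ⟨v0, v1, v2, v3, hne, he, fun σ' hσ' => ?_⟩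
    rw [same_unique e hne hσ' hσ]
    exact h2
  · exact ⟨v0, v1, v0, v1, hne, he, fun σ hσ => absurd ⟨σ, hσ⟩ h1⟩

theorem not_prf {g : Vc m → Vc m} (h : IsLine e g) (v0 v1 v2 v3 : Vc m) :
    ¬ Prf e g v0 v1 v2 v3 := by
  rintro ⟨h1, h2, h3⟩
  obtain ⟨σ, h4⟩ := h
  exact h3 σ ((h4 v0 v1).1 h2) (h4 v2 v3)

theorem card_image_line {g : Vc m → Vc m} (h : IsLine e g) :
    Fintype.card F * ((Finset.univ : Finset (Vc m)).image g).card ≤ 2 ^ m := by
  classical
  obtain ⟨σ, h4⟩ := h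
  have h1 : ∀ b ∈ (Finset.univ : Finset (Vc m)).image g,
      Fintype.card F ≤ ((Finset.univ : Finset (Vc m)).filter (fun u => g u = b)).card := by
    intro b hb
    obtain ⟨u, _, hu⟩ := Finset.mem_image.1 hb
    rw [← Finset.card_univ (α := F)]
    refine Finset.card_le_card_of_injOn
      (fun a : F => e.symm (a, (e u).2 - σ * (e u).1 + σ * a)) ?_ ?_
    · intro a _
      rw [Finset.mem_coe, Finset.mem_filter]
      refine ⟨Finset.mem_univ _, ?_⟩
      rw [← hu, eq_comm, h4, same, Equiv.apply_symm_apply]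
      simp
    · intro a _ a' _ haa
      have := e.symm.injective haa
      exact (Prod.ext_iff.1 this).1
  have h2 := Finset.card_eq_sum_card_image g (Finset.univ : Finset (Vc m))
  have h3 := Finset.card_nsmul_le_sum _ _ _ h1
  rw [← h2, Finset.card_univ] at h3
  simp only [smul_eq_mul, Fintype.card_pi, Fintype.card_bool, Finset.prod_const,
    Finset.card_univ, Fintype.card_fin] at h3
  rw [mul_comm]
  exact h3

theorem not_isLine_coe (p : Equiv.Perm (Vc m)) : ¬ IsLine e (p : Vc m → Vc m) := by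
  rintro ⟨σ, h⟩
  have h1 := (h (e.symm (0, 0)) (e.symm (1, σ))).2 (by
    rw [same, Equiv.apply_symm_apply, Equiv.apply_symm_apply]
    simp)
  have h2 := e.symm.injective (p.injective h1)
  exact zero_ne_one (Prod.ext_iff.1 h2).1

end Pool.Agent.W895.LA
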