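import Pool.Agent.W895.LT.Core
import Pool.Agent.W895.LA.Lines

/-!
# The Arthur-Merlin game and the inequality for families of programs
-/

set_option autoImplicit false

open Finset

namespace Pool.Agent.W895.LA

open Pool.Agent.H554R2.Sem Pool.Agent.H554R2.Coin Pool.Agent.H554R2.Lin Pool.Agent.H554R2.Rnd
open Pool.Agent.H554R2.Qua Pool.Agent.H554R2.NC
open Pool.Agent.W895.LT (Vc tbl pat tbl_pat Perms card_Perms tb tb_of_mem Accs)

variable {F : Type} [Field F] [Fintype F]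

open Classical in
/-- the hard function: the forms give a function from bit vectors to bit vectors whose fibres are
not parallel lines -/
noncomputable def ff {n G m : ℕ} (e : Vc m ≃ F × F) (π : Fin (2 ^ m * m) → Fin n → Fin G)
    (h : Fin (2 ^ m * m) → Fin n → Fin n → Bool) (x : Pt n) : Bool :=
  decide (¬ IsLine e (tb π h x))

/-- **The inequality.** -/
theorem ineq {n G m M I : ℕ} {S : ℝ} (e : Vc m ≃ F × F)
    (π : Fin (2 ^ m * m) → Fin n → Fin G) (h : Fin (2 ^ m * m) → Fin n → Fin n → Bool)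
    {L : ℕ} (hL : 2 * (L : ℝ) ^ 2 < Fintype.card F)
    (hpat : ∀ z, 3 / 4 * ((2 : ℝ) ^ n / 2 ^ (2 ^ m * m)) ≤ ((Pat π h z).card : ℝ) ∧
      ((Pat π h z).card : ℝ) ≤ 5 / 4 * ((2 : ℝ) ^ n / 2 ^ (2 ^ m * m)))
    (U : Fin I → BP (Fin n) Bool) (E : ℝ)
    (hd : ∀ i, ∑ z ∈ Perms m, (Nat.card {x // Accs (U i) x ∧ x ∈ Pat π h z} : ℝ) ≤
      M * (∑ z, bt e L z * (Nat.card {x // Accs (U i) x ∧ x ∈ Pat π h z} : ℝ) +
        ((Perms m).card + ∑ z, bt e L z) * E) + S)
    (hE : 0 ≤ E) (a b : ℝ) (hb : 0 ≤ b)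
    (h1 : ∀ x, ff e π h x = true → a ≤ (Nat.card {i // Accs (U i) x} : ℝ))
    (h2 : ∀ x, ff e π h x = false → (Nat.card {i // Accs (U i) x} : ℝ) ≤ b) :
    3 / 4 * a * ((Perms m).card * ((2 : ℝ) ^ n / 2 ^ (2 ^ m * m))) ≤
      5 / 2 * M * b * ((Perms m).card * ((2 : ℝ) ^ n / 2 ^ (2 ^ m * m))) +
      I * (M * (3 * (Perms m).card * E) + S) ∨ a < 0 := by
  classical
  by_cases ha : a < 0
  · exact Or.inr ha
  rw [not_lt] at ha
  left
  obtain ⟨V, hV⟩ : ∃ V : ℝ, V = (2 : ℝ) ^ n / 2 ^ (2 ^ m * m) := ⟨_, rfl⟩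
  rw [← hV] at hpat ⊢
  have hV0 : 0 ≤ V := by rw [hV]; positivity
  obtain ⟨A, hA⟩ : ∃ A : ℝ, A = ((Perms m).card : ℝ) := ⟨_, rfl⟩
  have hA0 : 0 ≤ A := by rw [hA]; exact Nat.cast_nonneg _
  have hbt : ∑ z, bt e L z ≤ 2 * A := by
    rw [hA, card_Perms]
    exact sum_bt e hL
  have hbt0 : ∀ z, 0 ≤ bt e L z := fun z => bt_nonneg e (by nlinarith [sq_nonneg (L : ℝ)]) z
  have hM : (0 : ℝ) ≤ M := Nat.cast_nonneg _
  -- double counting
  have hdc : ∀ z, ∑ i, (Nat.card {x // Accs (U i) x ∧ x ∈ Pat π h z} : ℝ) =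
      ∑ x ∈ Pat π h z, (Nat.card {i // Accs (U i) x} : ℝ) := by
    intro z
    have e1 : ∀ i, (Nat.card {x // Accs (U i) x ∧ x ∈ Pat π h z} : ℝ) =
        ∑ x ∈ Pat π h z, if Accs (U i) x then (1 : ℝ) else 0 := by
      intro i
      rw [Nat.card_eq_fintype_card, Fintype.card_subtype, Finset.sum_ite, Finset.sum_const_zero,
        add_zero, Finset.sum_const, nsmul_eq_mul, mul_one]
      congr 2
      ext x
      simp only [mem_filter, mem_univ, true_and]
      tauto
    have e2 : ∀ x, (Nat.card {i // Accs (U i) x} : ℝ) =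
        ∑ i, if Accs (U i) x then (1 : ℝ) else 0 := by
      intro x
      rw [Nat.card_eq_fintype_card, Fintype.card_subtype, Finset.sum_boole]
    simp only [e1, e2]
    exact Finset.sum_comm
  have hs := Finset.sum_le_sum (s := (univ : Finset (Fin I))) (fun i _ => hd i)
  rw [Finset.sum_comm, Finset.sum_add_distrib, Finset.sum_const, ← Finset.mul_sum,
    Finset.sum_add_distrib, Finset.sum_const, Finset.card_univ, Fintype.card_fin,
    Finset.sum_comm (s := (univ : Finset (Fin I)))] at hs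
  simp only [← Finset.mul_sum, hdc, nsmul_eq_mul] at hs
  -- the lower bound
  have hlow : 3 / 4 * a * (A * V) ≤ ∑ z ∈ Perms m, ∑ x ∈ Pat π h z,
      (Nat.card {i // Accs (U i) x} : ℝ) := by
    have h3 : ∀ z ∈ Perms m, 3 / 4 * a * V ≤ ∑ x ∈ Pat π h z,
        (Nat.card {i // Accs (U i) x} : ℝ) := by
      intro z hz
      obtain ⟨p, -, rfl⟩ := Finset.mem_image.1 hz
      have h4 : ∀ x ∈ Pat π h (pat p), a ≤ (Nat.card {i // Accs (U i) x} : ℝ) := by
        intro x hx
        apply h1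
        rw [ff, decide_eq_true_iff, tb_of_mem hx, tbl_pat]
        exact not_isLine_coe e p
      have h5 := Finset.card_nsmul_le_sum _ _ _ h4
      rw [nsmul_eq_mul] at h5
      refine le_trans ?_ h5
      have h6 := mul_le_mul_of_nonneg_right (hpat (pat p)).1 ha
      linarith
    have h4 := Finset.card_nsmul_le_sum _ _ _ h3
    rw [nsmul_eq_mul, ← hA] at h4
    linarith
  have hup : ∑ z, bt e L z * ∑ x ∈ Pat π h z, (Nat.card {i // Accs (U i) x} : ℝ) ≤
      5 / 2 * b * (A * V) := by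
    have h3 : ∀ z, bt e L z * ∑ x ∈ Pat π h z, (Nat.card {i // Accs (U i) x} : ℝ) ≤
        bt e L z * (5 / 4 * V * b) := by
      intro z
      by_cases hz : bt e L z = 0
      · rw [hz, zero_mul, zero_mul]
      · apply mul_le_mul_of_nonneg_left _ (hbt0 z)
        have h4 : ∀ x ∈ Pat π h z, (Nat.card {i // Accs (U i) x} : ℝ) ≤ b := by
          intro x hx
          apply h2
          rw [ff, decide_eq_false_iff_not, not_not, tb_of_mem hx]
          exact isLine_of_bt e hz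
        have h5 := Finset.sum_le_card_nsmul _ _ _ h4
        rw [nsmul_eq_mul] at h5
        refine h5.trans ?_
        exact mul_le_mul_of_nonneg_right (hpat z).2 hb
    refine (Finset.sum_le_sum fun z _ => h3 z).trans ?_
    rw [← Finset.sum_mul]
    have h4 : 0 ≤ 5 / 4 * V * b := by positivity
    have h5 := mul_le_mul_of_nonneg_right hbt h4
    linarith
  have h3 : ((A + ∑ z, bt e L z) * E) ≤ 3 * A * E := by
    have h4 := mul_le_mul_of_nonneg_right (add_le_add_right hbt A) hE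
    linarith
  rw [← hA] at hs
  rw [← hA]
  have hI : (0 : ℝ) ≤ I := Nat.cast_nonneg _
  have h4 : (M : ℝ) * (∑ z, bt e L z * ∑ x ∈ Pat π h z, (Nat.card {i // Accs (U i) x} : ℝ)) ≤
      M * (5 / 2 * b * (A * V)) := mul_le_mul_of_nonneg_left hup hM
  have h5 : (M : ℝ) * (I * ((A + ∑ z, bt e L z) * E)) ≤ M * (I * (3 * A * E)) :=
    mul_le_mul_of_nonneg_left (mul_le_mul_of_nonneg_left h3 hI) hM
  have h6 := hlow.trans hs
  rw [mul_add] at h6
  linarith

end Pool.Agent.W895.LA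

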