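import Pool.Agent.W895.LA.Core

/-!
# Arthur-Merlin games in one pass against Merlin-Arthur games in time `k n`
-/

set_option autoImplicit false

open Finset

namespace Pool.Agent.W895.LA

open Pool.Agent.H554R2.Sem Pool.Agent.H554R2.Coin Pool.Agent.H554R2.Lin Pool.Agent.H554R2.Rnd
open Pool.Agent.H554R2.Qua Pool.Agent.H554R2.NC
open Pool.Agent.W895.LT (Vc tbl pat tbl_pat Perms card_Perms tb tb_of_mem Accs idx one_any
  groups_gen det_gen pat_size)

/-- the number of trials -/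
theorem trials (k c : ℕ) : ∃ t : ℕ, 1 ≤ t ∧ c ≤ t ∧ 40 * (8 * (t * k + 2) ^ 2) ≤ 2 ^ t := by
  obtain ⟨N, hN⟩ := exp_large 2 (by norm_num) (18 * (k + 2))
  refine ⟨N + c + 1, by omega, by omega, ?_⟩
  have h1 := hN (N + c + 1) (by omega)
  obtain ⟨t, ht⟩ : ∃ t, t = N + c + 1 := ⟨_, rfl⟩
  rw [← ht] at h1 ⊢
  calc 40 * (8 * (t * k + 2) ^ 2) ≤ (18 * (k + 2) * (t + 1)) ^ 2 := by
        have h2 : t * k + 2 ≤ (k + 2) * (t + 1) := by nlinarith
        have h3 := Nat.pow_le_pow_left h2 2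
        calc 40 * (8 * (t * k + 2) ^ 2) ≤ 324 * ((k + 2) * (t + 1)) ^ 2 := by omega
          _ = (18 * (k + 2) * (t + 1)) ^ 2 := by ring
    _ ≤ (2 ^ (t / 2)) ^ 2 := Nat.pow_le_pow_left h1 2
    _ = 2 ^ (t / 2 * 2) := by rw [← pow_mul]
    _ ≤ 2 ^ t := Nat.pow_le_pow_right (by norm_num) (Nat.div_mul_le_self t 2)

/-- the order of the field -/
theorem exists_h (c q : ℕ) : ∃ h : ℕ, 1 ≤ h ∧ q ≤ h ∧
    2 * (((c * (2 * h) : ℕ) : ℝ)) ^ 2 < ((2 ^ h : ℕ) : ℝ) := by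
  obtain ⟨N, hN⟩ := exp_large 2 (by norm_num) (4 * c + 2)
  refine ⟨N + q + 1, by omega, by omega, ?_⟩
  have h1 := hN (N + q + 1) (by omega)
  obtain ⟨m, hm⟩ : ∃ m, m = N + q + 1 := ⟨_, rfl⟩
  rw [← hm] at h1 ⊢
  have h2 : ((4 * c + 2) * (m + 1)) ^ 2 ≤ 2 ^ m := by
    calc ((4 * c + 2) * (m + 1)) ^ 2 ≤ (2 ^ (m / 2)) ^ 2 := Nat.pow_le_pow_left h1 2
      _ = 2 ^ (m / 2 * 2) := by rw [← pow_mul]
      _ ≤ 2 ^ m := Nat.pow_le_pow_right (by norm_num) (Nat.div_mul_le_self m 2)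
  have h3 : 2 * (c * (2 * m)) ^ 2 < 2 ^ m := by
    refine lt_of_lt_of_le ?_ h2
    nlinarith [Nat.zero_le (c * m), Nat.zero_le c, Nat.zero_le m, Nat.zero_le (c * c * m)]
  exact_mod_cast h3

variable {F : Type} [Field F] [Fintype F]

/-- the verifier of the game, as a function of the table -/
noncomputable def ver {m : ℕ} (e : Vc m ≃ F × F) (w : Vc m) (u : Fin 4 → Vc m)
    (z : Fin (2 ^ m * m) → Bool) : Bool := by
  classical
  exact decide (tbl z (u 0) = w ∨ Prf e (tbl z) (u 0) (u 1) (u 2) (u 3))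

theorem ver_congr {m : ℕ} (e : Vc m ≃ F × F) (w : Vc m) (u : Fin 4 → Vc m)
    (z z' : Fin (2 ^ m * m) → Bool)
    (h : ∀ i ∈ (univ : Finset (Fin 4 × Fin m)).image (fun p => idx m (u p.1, p.2)), z i = z' i) :
    ver e w u z = ver e w u z' := by
  have h1 : ∀ a, tbl z (u a) = tbl z' (u a) := by
    intro a
    funext i
    exact h _ (Finset.mem_image.2 ⟨(a, i), Finset.mem_univ _, rfl⟩)
  unfold ver Prf
  apply decide_eq_decide.2
  simp only [h1]

theorem exists_u {m : ℕ} (e : Vc m ≃ F × F) {z : Fin (2 ^ m * m) → Bool}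
    (hz : ¬ IsLine e (tbl z)) (w : Vc m) : ∃ u : Fin 4 → Vc m, ver e w u z = true := by
  classical
  by_cases hi : Function.Injective (tbl z)
  · have hs : Function.Surjective (tbl z) := Finite.surjective_of_injective hi
    obtain ⟨u, hu⟩ := hs w
    refine ⟨fun _ => u, ?_⟩
    rw [ver, decide_eq_true_iff]
    exact Or.inl hu
  · obtain ⟨v0, v1, v2, v3, h⟩ := exists_prf e hz hi
    refine ⟨![v0, v1, v2, v3], ?_⟩
    rw [ver, decide_eq_true_iff]
    right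
    simpa using h

theorem card_w {m : ℕ} (e : Vc m ≃ F × F) {z : Fin (2 ^ m * m) → Bool} (hz : IsLine e (tbl z)) :
    Fintype.card F * Nat.card {w : Vc m // ∃ u : Fin 4 → Vc m, ver e w u z = true} ≤
      2 ^ m := by
  classical
  refine le_trans (Nat.mul_le_mul_left _ ?_) (card_image_line e hz)
  rw [Nat.card_eq_fintype_card, Fintype.card_subtype]
  apply Finset.card_le_card
  intro w hw
  obtain ⟨u, hu⟩ := (Finset.mem_filter.1 hw).2
  rw [ver, decide_eq_true_iff] at hu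
  rcases hu with h2 | h2
  · exact Finset.mem_image.2 ⟨u 0, Finset.mem_univ _, h2⟩
  · exact absurd h2 (not_prf e hz _ _ _ _)

/-- all the constants -/
theorem main_core (k e c q : ℕ) (he : 1 ≤ e) : ∃ (ta D : ℕ) (M : ℕ), 1 ≤ ta ∧ c ≤ ta ∧
    M = 8 * (ta * k + 2) ^ 2 ∧ 40 * M ≤ 2 ^ ta ∧ 1 ≤ D ∧
    ∀ n ≥ D, ∃ (f : Pt n → Bool) (s : ℕ), s ^ e ≤ D * n ∧
    (∃ (R J : ℕ) (V : Fin R → Fin J → BP (Fin n) Bool), 1 ≤ R ∧ R ≤ J ∧ J ≤ D ∧
      (∀ r j, Fintype.card (V r j).State ≤ 2 ^ s ∧ ∃ l : List (Fin n), l.Nodup ∧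
        ∀ x : Pt n, ∃ b, (V r j).Comp x l b) ∧
      (∀ x, f x = true → ∀ r, ∃ j, ∃ l, (V r j).Comp x l true) ∧
      ∀ x, f x = false → 2 ^ q * Nat.card {r // ∃ j, ∃ l, (V r j).Comp x l true} ≤ R ∧
        Nat.card {r // ∃ j, ∃ l, (V r j).Comp x l true} ^ 8 * J ≤ R ^ 8) ∧
    ∀ (I : ℕ) (U : Fin I → BP (Fin n) Bool),
      (∀ i, Fintype.card (U i).State ≤ 4 ^ (ta + 1) * (2 ^ (n / D) * (k * n + 2) + n + 3)) →
      (∀ i x, ∃ (l : List (Fin n)) (b : Bool), l.length ≤ (ta * k + 1) * n ∧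
        (U i).Comp x l b ∧ ∀ v, v ∈ l) →
      ∀ a b : ℝ, 0 ≤ a → 0 ≤ b →
        (∀ x, f x = true → a ≤ (Nat.card {i // Accs (U i) x} : ℝ)) →
        (∀ x, f x = false → (Nat.card {i // Accs (U i) x} : ℝ) ≤ b) →
        3 / 4 * a ≤ 5 / 2 * M * b + 1 / 4 * (I / 2 ^ (n / D)) := by
  classical
  obtain ⟨ta, hta, htc, ht1⟩ := trials k c
  obtain ⟨K, hK⟩ : ∃ K : ℕ, K = ta * k + 1 := ⟨_, rfl⟩
  have hK1 : 1 ≤ K := by omega
  obtain ⟨Q, r, N, hQ, hr, hN, hdet⟩ := det_gen K hK1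
  obtain ⟨M, hM⟩ : ∃ M : ℕ, M = 8 * (ta * k + 2) ^ 2 := ⟨_, rfl⟩
  rw [← hM] at ht1
  obtain ⟨h0, hh0, hq0, hh2⟩ := exists_h (64 * (e * 4) * (Q + 4)) q
  -- the field
  let F : Type := GaloisField 2 h0
  haveI : Fintype F := Fintype.ofFinite F
  have hF : Fintype.card F = 2 ^ h0 := by
    rw [← Nat.card_eq_fintype_card]
    exact GaloisField.card 2 h0 (by omega)
  obtain ⟨m, hm0⟩ : ∃ m, m = 2 * h0 := ⟨_, rfl⟩
  have hm : 1 ≤ m := by omega
  obtain ⟨pl⟩ : Nonempty (Vc m ≃ F × F) := by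
    refine ⟨Fintype.equivOfCardEq ?_⟩
    rw [Fintype.card_prod, hF, hm0]
    simp
    ring
  obtain ⟨D0, hD0⟩ : ∃ D0 : ℕ, D0 = 2 ^ m * m := ⟨_, rfl⟩
  have hD01 : 1 ≤ D0 := by
    rw [hD0]
    exact Nat.mul_pos (by positivity) hm
  obtain ⟨L, hL⟩ : ∃ L : ℕ, L = 64 * (e * (4 * m)) * (Q + 4) := ⟨_, rfl⟩
  have hL2 : 2 * (L : ℝ) ^ 2 < Fintype.card F := by
    have : L = 64 * (e * 4) * (Q + 4) * (2 * h0) := by rw [hL, hm0]; ring
    rw [this, hF]
    exact hh2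
  have hqm : 1 ≤ 4 * m := by omega
  obtain ⟨W1, N2, hW1, hcoefs⟩ := coefs_gen (Q + 4) (2 ^ m * m) (by omega)
  obtain ⟨N1, C, hN1⟩ := groups_gen (Q + 4) e (4 * m) (2 ^ m * m) W1 (by omega) he hqm
    (by rw [← hD0]; exact hD01)
  obtain ⟨c1, hc1⟩ : ∃ c1 : ℕ, c1 = 4 * N * (r + 1) := ⟨_, rfl⟩
  have hc1' : 1 ≤ c1 := by rw [hc1]; exact Nat.one_le_iff_ne_zero.2 (by positivity)
  obtain ⟨N3, hN3⟩ := exp_large (2 * c1) (by omega) (4 ^ (ta + 1) * (k + 4))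
  obtain ⟨N4, hN4⟩ := exp_large (4 * N) (by omega) (8 * 2 ^ D0)
  obtain ⟨N5, hN5⟩ := exp_large 32768 (by norm_num) (2 ^ (D0 + 2))
  obtain ⟨N6, hN6⟩ := exp_large (2 * (16384 * Q)) (by omega) (48 * M * 2 ^ D0)
  obtain ⟨D, hD⟩ : ∃ D : ℕ, D = 3 ^ e * ((4 * m + 4) ^ e + e ^ e + C) + N + N1 + N2 + N3 + N4 +
    N5 + N6 + 2 * c1 + 4 * N + 2 * (16384 * Q) + (2 ^ m) ^ 4 + 10 := ⟨_, rfl⟩
  refine ⟨ta, D, M, hta, htc, hM, ht1, by omega, fun n hn => ?_⟩
  have hn0 : 1 ≤ n := by omega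
  obtain ⟨G, π, hG, hWG, hbal, ⟨A0, B0, hdisj, hA0, hB0, hbal0⟩, hblocks⟩ := hN1 n (by omega)
  obtain ⟨h, hker⟩ := hcoefs n (by omega) G hG hWG π
  obtain ⟨s, hs1, hs2⟩ := exists_s e D n he
  have hQ2 : ∀ a : ℕ, n ≤ Q * a → n ≤ (Q + 4) * a := fun a ha => ha.trans (by nlinarith)
  refine ⟨ff pl π h, s, hs1, ?_, ?_⟩
  · -- the game
    have hT : ∀ u : Fin 4 → Vc m,
        ((univ : Finset (Fin 4 × Fin m)).image (fun p => idx m (u p.1, p.2))).card ≤ 4 * m := by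
      intro u
      refine Finset.card_image_le.trans ?_
      simp
    choose V0 l0 hV1 hV2 hV3 using fun (w : Vc m) (u : Fin 4 → Vc m) =>
      one_any he hn0 π h hblocks (by omega) hs2 _ (hT u) (ver pl w u) (ver_congr pl w u)
    obtain ⟨R, hR⟩ : ∃ R, R = Nat.card (Vc m) := ⟨_, rfl⟩
    obtain ⟨J, hJ⟩ : ∃ J, J = Nat.card (Fin 4 → Vc m) := ⟨_, rfl⟩
    have hR' : R = 2 ^ m := by rw [hR]; simp
    have hJ' : J = (2 ^ m) ^ 4 := by rw [hJ]; simp
    have E : Fin R ≃ Vc m := by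
      rw [hR]
      exact (Finite.equivFin _).symm
    have E' : Fin J ≃ (Fin 4 → Vc m) := by
      rw [hJ]
      exact (Finite.equivFin _).symm
    have hacc : ∀ w u x, (∃ l, (V0 w u).Comp x l true) ↔
        ver pl w u (fun c => qr (π c) (h c) x) = true := by
      intro w u x
      constructor
      · rintro ⟨l, hl⟩
        exact R25_comp_det _ x (hV3 w u x) hl
      · intro h1
        have h2 := hV3 w u x
        rw [h1] at h2
        exact ⟨_, h2⟩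
    refine ⟨R, J, fun a b => V0 (E a) (E' b), ?_, ?_, ?_, ?_, ?_, ?_⟩
    · rw [hR']
      exact Nat.one_le_two_pow
    · rw [hR', hJ']
      exact Nat.le_self_pow (by norm_num) _
    · rw [hJ']
      omega
    · intro a b
      exact ⟨hV1 _ _, _, hV2 _ _, fun x => ⟨_, hV3 _ _ x⟩⟩
    · intro x hx a
      rw [ff, decide_eq_true_iff] at hx
      obtain ⟨u, hu⟩ := exists_u pl hx (E a)
      refine ⟨E'.symm u, ?_⟩
      rw [hacc, Equiv.apply_symm_apply]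
      exact hu
    · intro x hx
      rw [ff, decide_eq_false_iff_not, not_not] at hx
      have h1 := card_w pl hx
      rw [hF] at h1
      have h2 : Nat.card {r // ∃ j, ∃ l, (V0 (E r) (E' j)).Comp x l true} =
          Nat.card {w : Vc m // ∃ u : Fin 4 → Vc m,
            ver pl w u (fun c => qr (π c) (h c) x) = true} := by
        apply Nat.card_congr
        refine E.subtypeEquiv fun a => ?_
        constructor
        · rintro ⟨b, hb⟩
          rw [hacc] at hb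
          exact ⟨_, hb⟩
        · rintro ⟨u, hu⟩
          refine ⟨E'.symm u, ?_⟩
          rw [hacc, Equiv.apply_symm_apply]
          exact hu
      rw [h2]
      have h3 : Nat.card {w : Vc m // ∃ u : Fin 4 → Vc m,
            ver pl w u (fun c => qr (π c) (h c) x) = true} * 2 ^ h0 ≤ R := by
        rw [hR', mul_comm]
        exact h1
      constructor
      · refine le_trans ?_ h3
        rw [mul_comm]
        exact Nat.mul_le_mul_left _ (Nat.pow_le_pow_right (by norm_num) hq0)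
      · have h4 : J = (2 ^ h0) ^ 8 := by
          rw [hJ', hm0]
          ring
        rw [h4, ← mul_pow]
        exact Nat.pow_le_pow_left h3 8
  · -- the lower bound
    intro I U hU1 hU2 a b ha hb h1 h2
    have hpat := pat_size π h A0 B0 hdisj hA0 hB0 hbal0 hker (by
      rw [← hD0]
      exact (Nat.le_mul_of_pos_right _ (by omega)).trans (hN5 n (by omega)))
    obtain ⟨E, hE⟩ : ∃ E : ℝ, E = 2 * 2 ^ n / 2 ^ (n / (16384 * Q)) := ⟨_, rfl⟩
    have hE0 : 0 ≤ E := by rw [hE]; positivity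
    obtain ⟨S0, hS0⟩ : ∃ S0 : ℕ, S0 = 4 ^ (ta + 1) * (2 ^ (n / D) * (k * n + 2) + n + 3) := ⟨_, rfl⟩
    obtain ⟨S, hS⟩ : ∃ S : ℝ, S = (S0 : ℝ) ^ (r + 1) * (2 ^ n / 2 ^ (n / N)) := ⟨_, rfl⟩
    have hd : ∀ i, ∑ z ∈ Perms m, (Nat.card {x // Accs (U i) x ∧ x ∈ Pat π h z} : ℝ) ≤
      M * (∑ z, bt pl L z * (Nat.card {x // Accs (U i) x ∧ x ∈ Pat π h z} : ℝ) +
        ((Perms m).card + ∑ z, bt pl L z) * E) + S := by
      intro i
      have h3 := hdet n (by omega) (Perms m) (bt pl L)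
        (fun z => bt_nonneg pl (by nlinarith [sq_nonneg (L : ℝ)]) z) (comparison pl hL2) π h
        (fun A B' h1 h2 h3 => hker A B' h1 (hQ2 _ h2) (hQ2 _ h3))
        (fun A B' h2 h3 => (hbal A B' (hQ2 _ h2) (hQ2 _ h3)).trans hL.symm.le) (U i) true
        (fun x => by rw [hK]; exact hU2 i x)
      have e1 : ∀ z, (Nat.card {x // Accs (U i) x ∧ x ∈ Pat π h z} : ℝ) =
          ((univ.filter (fun x => (∃ l, (U i).Comp x l true) ∧ x ∈ Pat π h z)).card : ℝ) := by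
        intro z
        rw [Nat.card_eq_fintype_card, Fintype.card_subtype]
        rfl
      simp only [e1]
      have e2 : 8 * ((K : ℝ) + 1) ^ 2 = M := by rw [hM, hK]; push_cast; ring
      rw [e2, ← hE] at h3
      refine h3.trans ?_
      have h4 : (Fintype.card (U i).State : ℝ) ^ (r + 1) ≤ (S0 : ℝ) ^ (r + 1) := by
        apply pow_le_pow_left₀ (Nat.cast_nonneg _)
        rw [hS0]
        exact_mod_cast hU1 i
      have h5 := mul_le_mul_of_nonneg_right h4 (show (0 : ℝ) ≤ 2 ^ n / 2 ^ (n / N) by positivity)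
      rw [← hS] at h5
      linarith
    have h3 := ineq pl π h hL2 hpat U E hd hE0 a b hb h1 h2
    rcases h3 with h3 | h3
    swap
    · exact absurd h3 (not_lt.2 ha)
    obtain ⟨V, hV⟩ : ∃ V : ℝ, V = (2 : ℝ) ^ n / 2 ^ (2 ^ m * m) := ⟨_, rfl⟩
    obtain ⟨A, hA⟩ : ∃ A : ℝ, A = ((Perms m).card : ℝ) := ⟨_, rfl⟩
    have hV0 : 0 < V := by rw [hV]; positivity
    have hA1 : 1 ≤ A := by
      rw [hA, card_Perms]
      exact_mod_cast Fintype.card_pos (α := Equiv.Perm (Vc m))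
    rw [← hV, ← hA] at h3
    have hAV : 0 < A * V := mul_pos (by linarith) hV0
    have hnD : (0 : ℝ) < 2 ^ (n / D) := by positivity
    have h2n : (0 : ℝ) < 2 ^ n := by positivity
    -- the size of the programs
    have hsize : S0 ≤ 2 ^ (n / D) * 2 ^ (n / (2 * c1)) := by
      have h1 : 4 ^ (ta + 1) * (k + 4) * (n + 1) ≤ 2 ^ (n / (2 * c1)) := hN3 n (by omega)
      have h2 : 1 ≤ 2 ^ (n / D) := Nat.one_le_two_pow
      rw [hS0]
      calc 4 ^ (ta + 1) * (2 ^ (n / D) * (k * n + 2) + n + 3) ≤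
          4 ^ (ta + 1) * (2 ^ (n / D) * ((k + 4) * (n + 1))) := by
            apply Nat.mul_le_mul_left
            have h3 : (k + 4) * (n + 1) = k * n + k + 4 * n + 4 := by ring
            rw [h3]
            have h4 : 2 ^ (n / D) * (k * n + k + 4 * n + 4) =
              2 ^ (n / D) * (k * n + 2) + 2 ^ (n / D) * (k + 4 * n + 2) := by ring
            rw [h4]
            have h5 : k + 4 * n + 2 ≤ 2 ^ (n / D) * (k + 4 * n + 2) := Nat.le_mul_of_pos_left _ h2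
            omega
        _ = 2 ^ (n / D) * (4 ^ (ta + 1) * (k + 4) * (n + 1)) := by ring
        _ ≤ 2 ^ (n / D) * 2 ^ (n / (2 * c1)) := Nat.mul_le_mul_left _ h1
    have hsize2 : S0 ^ (r + 1) ≤ 2 ^ (n / (4 * N)) := by
      refine (Nat.pow_le_pow_left hsize _).trans ?_
      rw [← pow_add, ← pow_mul]
      apply Nat.pow_le_pow_right (by norm_num)
      rw [Nat.le_div_iff_mul_le (by omega)]
      have h1 : 2 * c1 * (n / (2 * c1)) ≤ n := Nat.mul_div_le n (2 * c1)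
      have h2 : 2 * c1 * (n / D) ≤ n :=
        (Nat.mul_le_mul_right _ (by omega)).trans (Nat.mul_div_le n D)
      have h3 : 2 * ((n / D + n / (2 * c1)) * (r + 1) * (4 * N)) =
          2 * c1 * (n / D) + 2 * c1 * (n / (2 * c1)) := by rw [hc1]; ring
      omega
    -- the error terms
    have hZ : S ≤ 1 / 8 * V / 2 ^ (n / D) := by
      have h1 : 8 * 2 ^ D0 * (n + 1) ≤ 2 ^ (n / (4 * N)) := hN4 n (by omega)
      have h2 : 8 * 2 ^ D0 ≤ 2 ^ (n / (4 * N)) := (Nat.le_mul_of_pos_right _ (by omega)).trans h1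
      have h3 : 2 ^ (n / D) ≤ 2 ^ (n / (4 * N)) :=
        Nat.pow_le_pow_right (by norm_num) (Nat.div_le_div_left (by omega) (by omega))
      have h4 : 2 ^ (n / (4 * N)) * (2 ^ (n / (4 * N)) * 2 ^ (n / (4 * N))) ≤ 2 ^ (n / N) := by
        rw [← pow_add, ← pow_add]
        apply Nat.pow_le_pow_right (by norm_num)
        rw [Nat.le_div_iff_mul_le (by omega)]
        have := Nat.mul_div_le n (4 * N)
        nlinarith
      have h5 : S0 ^ (r + 1) * (8 * 2 ^ D0 * 2 ^ (n / D)) ≤ 2 ^ (n / N) :=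
        (Nat.mul_le_mul hsize2 (Nat.mul_le_mul h2 h3)).trans h4
      have h6 : ((S0 : ℝ) ^ (r + 1)) * (8 * (2 : ℝ) ^ D0 * 2 ^ (n / D)) ≤ 2 ^ (n / N) := by
        exact_mod_cast h5
      have h7 : (0 : ℝ) < 2 ^ (n / N) := by positivity
      have h8 : (0 : ℝ) < 2 ^ D0 := by positivity
      rw [hS, hV, ← hD0, le_div_iff₀ hnD]
      have e : (S0 : ℝ) ^ (r + 1) * (2 ^ n / 2 ^ (n / N)) * 2 ^ (n / D) =
          ((S0 : ℝ) ^ (r + 1) * (8 * 2 ^ D0 * 2 ^ (n / D))) * (1 / 8 * (2 ^ n / 2 ^ D0)) /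
            2 ^ (n / N) := by
        field_simp
      rw [e, div_le_iff₀ h7]
      calc ((S0 : ℝ) ^ (r + 1) * (8 * 2 ^ D0 * 2 ^ (n / D))) * (1 / 8 * (2 ^ n / 2 ^ D0)) ≤
            2 ^ (n / N) * (1 / 8 * (2 ^ n / 2 ^ D0)) :=
            mul_le_mul_of_nonneg_right h6 (by positivity)
        _ = 1 / 8 * (2 ^ n / 2 ^ D0) * 2 ^ (n / N) := by ring
    have hY : (M : ℝ) * (3 * E) ≤ 1 / 8 * V / 2 ^ (n / D) := by
      have h1 : 48 * M * 2 ^ D0 * (n + 1) ≤ 2 ^ (n / (2 * (16384 * Q))) := hN6 n (by omega)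
      have h2 : 48 * M * 2 ^ D0 ≤ 2 ^ (n / (2 * (16384 * Q))) :=
        (Nat.le_mul_of_pos_right _ (by omega)).trans h1
      have h3 : 2 ^ (n / D) ≤ 2 ^ (n / (2 * (16384 * Q))) :=
        Nat.pow_le_pow_right (by norm_num) (Nat.div_le_div_left (by omega) (by omega))
      have h4 : 2 ^ (n / (2 * (16384 * Q))) * 2 ^ (n / (2 * (16384 * Q))) ≤
          2 ^ (n / (16384 * Q)) := by
        rw [← pow_add]
        apply Nat.pow_le_pow_right (by norm_num)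
        rw [Nat.le_div_iff_mul_le (by omega)]
        have := Nat.mul_div_le n (2 * (16384 * Q))
        nlinarith
      have h5 : 48 * M * 2 ^ D0 * 2 ^ (n / D) ≤ 2 ^ (n / (16384 * Q)) :=
        (Nat.mul_le_mul h2 h3).trans h4
      have h6 : 48 * (M : ℝ) * (2 : ℝ) ^ D0 * 2 ^ (n / D) ≤ 2 ^ (n / (16384 * Q)) := by
        exact_mod_cast h5
      have h7 : (0 : ℝ) < 2 ^ (n / (16384 * Q)) := by positivity
      have h8 : (0 : ℝ) < 2 ^ D0 := by positivity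
      rw [hE, hV, ← hD0, le_div_iff₀ hnD]
      have e : (M : ℝ) * (3 * (2 * 2 ^ n / 2 ^ (n / (16384 * Q)))) * 2 ^ (n / D) =
          (48 * (M : ℝ) * (2 : ℝ) ^ D0 * 2 ^ (n / D)) * (1 / 8 * (2 ^ n / 2 ^ D0)) /
            2 ^ (n / (16384 * Q)) := by
        field_simp
        ring
      rw [e, div_le_iff₀ h7]
      calc (48 * (M : ℝ) * (2 : ℝ) ^ D0 * 2 ^ (n / D)) * (1 / 8 * (2 ^ n / 2 ^ D0)) ≤
            2 ^ (n / (16384 * Q)) * (1 / 8 * (2 ^ n / 2 ^ D0)) :=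
            mul_le_mul_of_nonneg_right h6 (by positivity)
        _ = 1 / 8 * (2 ^ n / 2 ^ D0) * 2 ^ (n / (16384 * Q)) := by ring
    have hI : (0 : ℝ) ≤ I := Nat.cast_nonneg _
    have h4 : (M : ℝ) * (3 * A * E) + S ≤ 1 / 4 * (A * V) / 2 ^ (n / D) := by
      have h5 : (M : ℝ) * (3 * A * E) ≤ A * (1 / 8 * V / 2 ^ (n / D)) := by
        have := mul_le_mul_of_nonneg_left hY (show 0 ≤ A by linarith)
        calc (M : ℝ) * (3 * A * E) = A * (M * (3 * E)) := by ring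
          _ ≤ _ := this
      have h6 : S ≤ A * (1 / 8 * V / 2 ^ (n / D)) :=
        hZ.trans (le_mul_of_one_le_left (by positivity) hA1)
      have e : 1 / 4 * (A * V) / 2 ^ (n / D) = A * (1 / 8 * V / 2 ^ (n / D)) +
          A * (1 / 8 * V / 2 ^ (n / D)) := by ring
      rw [e]
      exact add_le_add h5 h6
    have h5 := h3.trans (add_le_add (le_refl (5 / 2 * (M : ℝ) * b * (A * V))) (mul_le_mul_of_nonneg_left h4 hI))
    have e : 5 / 2 * (M : ℝ) * b * (A * V) + I * (1 / 4 * (A * V) / 2 ^ (n / D)) =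
        (5 / 2 * M * b + 1 / 4 * (I / 2 ^ (n / D))) * (A * V) := by
      field_simp
    rw [e] at h5
    exact le_of_mul_le_mul_right h5 hAV

end Pool.Agent.W895.LA
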